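import Mathlib
import Pool.Agent.Results.MP_e22981_co.LazyCopNumberOrder

set_option autoImplicit false

/-!
# The lazy cop number of the hypercube: bounds in every dimension

`2 * ⌊3 * (n choose n/2) / 2 ^ r⌋` lazy cops win on the `n`-dimensional hypercube whenever
`2 ^ r ≤ n + 1`; in particular `c_L(Q_n) ≤ 12 * 2 ^ n / n ^ (3/2)` for every `n ≥ 1`, and
`c_L(Q_n) ≥ c * 2 ^ n / n ^ (3/2)` for every `n ≥ 1` and some constant `c > 0`.
-/

namespace Pool.Agent.Results.MP_e22981_co.ExplicitAllDimensions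

open LazyCops Filter Asymptotics

/-- Without cops there is no win. -/
theorem no_cops {V : Type} (G : SimpleGraph V) (c : Fin 0 → V) (r : V) : ¬ CopsWin G c r := by
  intro h
  induction h with
  | caught c r i h => exact i.elim0
  | capture c c' r hm i h => exact i.elim0
  | move c c' r hm h ih => exact ih r (Or.inl rfl)

theorem upper (n r : ℕ) (hr : 2 ^ r ≤ n + 1) :
    lazyCopNumber (hypercube n) ≤ 2 * (3 * n.choose (n / 2) / 2 ^ r) :=
  Nat.sInf_le (LazyCops.Up.exists_win hr rfl)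

theorem mem (n : ℕ) : lazyCopNumber (hypercube n) ∈
    {k : ℕ | ∃ c : Fin k → (Fin n → Bool), ∀ r, CopsWin (hypercube n) c r} :=
  Nat.sInf_mem ⟨_, LazyCops.Up.exists_win (n := n) (r := 0) (by simp) rfl⟩

theorem one_le (n : ℕ) : 1 ≤ lazyCopNumber (hypercube n) := by
  by_contra hcon
  have h0 : lazyCopNumber (hypercube n) = 0 := by omega
  have h1 := mem n
  rw [h0] at h1
  obtain ⟨c, hc⟩ := h1
  exact no_cops _ c (fun _ => false) (hc _)

theorem pow_eq {n : ℕ} (hn : 1 ≤ n) : (n : ℝ) ^ (3 / 2 : ℝ) = n * √n := by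
  have hn0 : (0 : ℝ) < n := by exact_mod_cast hn
  rw [Real.sqrt_eq_rpow, show (3 / 2 : ℝ) = 1 + 1 / 2 by norm_num, Real.rpow_add hn0,
    Real.rpow_one]

theorem upper_real {n : ℕ} (hn : 1 ≤ n) :
    (lazyCopNumber (hypercube n) : ℝ) ≤ 12 * (2 ^ n / (n : ℝ) ^ (3 / 2 : ℝ)) := by
  set r := Nat.log 2 (n + 1) with hr
  have h1 : 2 ^ r ≤ n + 1 := Nat.pow_log_le_self 2 (by omega)
  have h2 : n + 1 < 2 ^ (r + 1) := Nat.lt_pow_succ_log_self (by norm_num) _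
  have h0 : (lazyCopNumber (hypercube n) : ℝ) ≤
      ((2 * (3 * n.choose (n / 2) / 2 ^ r) : ℕ) : ℝ) := by exact_mod_cast upper n r h1
  refine h0.trans ?_
  rw [pow_eq hn]
  have hnpos : (0 : ℝ) < n := by exact_mod_cast hn
  have hsq : 0 < √(n : ℝ) := Real.sqrt_pos.mpr hnpos
  have h3 : ((3 * n.choose (n / 2) / 2 ^ r : ℕ) : ℝ) ≤ 3 * n.choose (n / 2) / 2 ^ r := by
    have := @Nat.cast_div_le ℝ _ _ _ (3 * n.choose (n / 2)) (2 ^ r)
    push_cast at this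
    exact this
  have h4 : (n : ℝ) ≤ 2 * 2 ^ r := by
    have : n ≤ 2 * 2 ^ r := by
      rw [pow_succ] at h2; omega
    exact_mod_cast this
  have hcb := LazyCops.Up.choose_bound_real n
  rw [← mul_div_assoc, le_div_iff₀ (by positivity)]
  push_cast
  have hp : (0 : ℝ) < 2 ^ r := by positivity
  have h5 : (2 * ((3 * n.choose (n / 2) / 2 ^ r : ℕ) : ℝ)) * (n * √n)
      ≤ (2 * (3 * n.choose (n / 2) / 2 ^ r)) * ((2 * 2 ^ r) * √n) := by
    gcongr
  refine h5.trans ?_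
  have h6 : (2 * (3 * n.choose (n / 2) / 2 ^ r)) * ((2 * 2 ^ r) * √(n : ℝ))
      = 12 * (n.choose (n / 2) * √n) := by
    field_simp
    ring
  rw [h6]
  exact mul_le_mul_of_nonneg_left hcb (by norm_num)

theorem lower_real : ∃ c : ℝ, 0 < c ∧ ∀ n : ℕ, 1 ≤ n →
    c * (2 ^ n / (n : ℝ) ^ (3 / 2 : ℝ)) ≤ (lazyCopNumber (hypercube n) : ℝ) := by
  obtain ⟨c, hc, hlow⟩ := LazyCops.exists_lower
  obtain ⟨N, hN⟩ := eventually_atTop.mp hlow
  refine ⟨min c (1 / 2 ^ N), lt_min hc (by positivity), fun n hn => ?_⟩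
  have hn0 : (0 : ℝ) < n := by exact_mod_cast hn
  have hsq : 0 < √(n : ℝ) := Real.sqrt_pos.mpr hn0
  rw [pow_eq hn]
  by_cases h : N ≤ n
  · obtain ⟨c', hc'⟩ := mem n
    have h1 : min c (1 / 2 ^ N) * (2 ^ n / (n * √n)) ≤ c * (2 ^ n / (n * √n)) :=
      mul_le_mul_of_nonneg_right (min_le_left _ _) (by positivity)
    refine h1.trans ?_
    by_contra hcon
    push Not at hcon
    have hle : (lazyCopNumber (hypercube n) : ℝ) ≤ c * 2 ^ n / (n * √n) := by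
      rw [mul_div_assoc]
      exact hcon.le
    obtain ⟨r, hr⟩ := hN n h _ hle c'
    exact hr (hc' r)
  · have h1 : (1 : ℝ) ≤ (lazyCopNumber (hypercube n) : ℝ) := by exact_mod_cast one_le n
    refine le_trans ?_ h1
    have h2 : min c (1 / 2 ^ N) * (2 ^ n / (n * √n)) ≤ 1 / 2 ^ N * (2 ^ n / (n * √n)) :=
      mul_le_mul_of_nonneg_right (min_le_right _ _) (by positivity)
    refine h2.trans ?_
    have h3 : (2 : ℝ) ^ n ≤ 2 ^ N := pow_le_pow_right₀ (by norm_num) (by omega)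
    have h4 : (1 : ℝ) ≤ n * √n := by
      have h5 : (1 : ℝ) ≤ n := by exact_mod_cast hn
      have h6 : (1 : ℝ) ≤ √n := Real.one_le_sqrt.mpr h5
      nlinarith
    rw [div_mul_div_comm, one_mul, div_le_one (by positivity)]
    calc (2 : ℝ) ^ n ≤ 2 ^ N := h3
      _ = 2 ^ N * 1 := (mul_one _).symm
      _ ≤ 2 ^ N * (n * √n) := mul_le_mul_of_nonneg_left h4 (by positivity)

/-- (1) `c_L(Q_n) ≤ 2 * ⌊3 * (n choose n/2) / 2 ^ r⌋` whenever `2 ^ r ≤ n + 1`. (2) There is a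
constant `c > 0` with `c * 2 ^ n / n ^ (3/2) ≤ c_L(Q_n) ≤ 12 * 2 ^ n / n ^ (3/2)` for every `n ≥ 1`.
(3) So `c_L(Q_n)` has order `2 ^ n / n ^ (3/2)`. -/
theorem result :
    (∀ n r : ℕ, 2 ^ r ≤ n + 1 →
      lazyCopNumber (hypercube n) ≤ 2 * (3 * n.choose (n / 2) / 2 ^ r)) ∧
    (∃ c : ℝ, 0 < c ∧ ∀ n : ℕ, 1 ≤ n →
      c * (2 ^ n / (n : ℝ) ^ (3 / 2 : ℝ)) ≤ (lazyCopNumber (hypercube n) : ℝ) ∧
      (lazyCopNumber (hypercube n) : ℝ) ≤ 12 * (2 ^ n / (n : ℝ) ^ (3 / 2 : ℝ))) ∧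
    (fun n : ℕ => (lazyCopNumber (hypercube n) : ℝ)) =Θ[atTop]
      (fun n : ℕ => (2 : ℝ) ^ n / (n : ℝ) ^ (3 / 2 : ℝ)) := by
  obtain ⟨c, hc, h⟩ := lower_real
  exact ⟨upper, ⟨c, hc, fun n hn => ⟨h n hn, upper_real hn⟩⟩,
    Pool.Agent.Results.MP_e22981_co.LazyCopNumberOrder.result⟩

end Pool.Agent.Results.MP_e22981_co.ExplicitAllDimensions
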